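import Pool.Agent.H26.QQ.Targets

/-!
# Triples with one dusty entry, row NUV: the valuation of the determinant
-/

set_option autoImplicit false

open Finset MvPolynomial

namespace Pool.Agent.H79.QQ

open Pool.Agent.H29.FX Pool.Agent.H26.QQ

theorem pf_NUV (hPID : T_PID) : T_NUV := by
  intro n pt e u w L z i l E v he hl hvE hF hco hN hcon
  apply hN
  obtain ⟨D, hD⟩ : ∃ D : Dr n, D = TD L i := ⟨_, rfl⟩
  have hTJ : eval z (TJ ((fq pt e u w, i) :: L)) = eval z (TJ L) * eval z (D (fq pt e u w)) := by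
    rw [hD]
    change eval z (TJ L * TD L i (fq pt e u w)) = _
    rw [map_mul]
  rw [hTJ] at hcon
  rw [← hD]
  have hDf : D (fq pt e u w) = C u * D (en pt e 0) + C w * D (en pt e 1) := by
    unfold fq
    rw [map_add, Derivation.leibniz, Derivation.leibniz]
    have h0 : ∀ a : ℤ, D (C a : Pl n) = 0 := fun a => by
      have : (C a : Pl n) = algebraMap ℤ (Pl n) a := rfl
      rw [this, Derivation.map_algebraMap]
    rw [h0, h0, smul_zero, smul_zero, smul_eq_mul, smul_eq_mul, add_zero, add_zero]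
  have h1 : eval z (∏ v, X v : Pl n) * eval z (D (en pt e 0)) =
      eval z (en pt e 0) * eval z (lg pt e D 0) := by
    rw [← map_mul, hPID n pt e D 0 he, map_mul]
  have h2 : eval z (∏ v, X v : Pl n) * eval z (D (en pt e 1)) =
      eval z (en pt e 1) * eval z (lg pt e D 1) := by
    rw [← map_mul, hPID n pt e D 1 he, map_mul]
  have h3 : eval z (D (fq pt e u w)) = u * eval z (D (en pt e 0)) + w * eval z (D (en pt e 1)) := by
    rw [hDf, map_add, map_mul, map_mul, eval_C, eval_C]
  have h4 : eval z (fq pt e u w) = u * eval z (en pt e 0) + w * eval z (en pt e 1) := by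
    unfold fq
    rw [map_add, map_mul, map_mul, eval_C, eval_C]
  have h5 : eval z (gd pt e D) = eval z (lg pt e D 0) - eval z (lg pt e D 1) := by
    unfold gd
    rw [map_sub]
  have hFv : (l : ℤ) ^ (v + 1) ∣ u * eval z (en pt e 0) + w * eval z (en pt e 1) := by
    rw [← h4]
    exact (pow_dvd_pow _ hvE).trans hF
  have hlp : Prime (l : ℤ) := Nat.prime_iff_prime_int.1 hl
  have hnl : ¬ (l : ℤ) ∣ u * eval z (en pt e 0) := by
    intro h6
    have h7 : (l : ℤ) ∣ w * eval z (en pt e 1) :=
      (dvd_add_right h6).1 ((dvd_pow_self _ (Nat.succ_ne_zero v)).trans hFv)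
    exact hlp.not_unit (hco.isUnit_of_dvd' h6 h7)
  have hcop : IsCoprime ((l : ℤ) ^ (v + 1)) (u * eval z (en pt e 0)) :=
    ((Prime.coprime_iff_not_dvd hlp).2 hnl).pow_left
  refine hcop.dvd_of_dvd_mul_left ?_
  have h8 : u * eval z (en pt e 0) * (eval z (TJ L) * eval z (gd pt e D)) =
      eval z (∏ v, X v : Pl n) * (eval z (TJ L) * eval z (D (fq pt e u w))) -
        (u * eval z (en pt e 0) + w * eval z (en pt e 1)) *
          (eval z (TJ L) * eval z (lg pt e D 1)) := by
    rw [h3, h5]
    linear_combination (-(u : ℤ) * eval z (TJ L)) * h1 - (w : ℤ) * eval z (TJ L) * h2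
  rw [h8]
  exact dvd_sub (Dvd.dvd.mul_left hcon _) (Dvd.dvd.mul_right hFv _)

end Pool.Agent.H79.QQ
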